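import Pool.Agent.Helper2.EC_C.Goals
import Pool.Agent.Helper2.EC_C.Basic

set_option autoImplicit false

open MeasureTheory Filter Topology Set

namespace ECC.PkF

open EC237 ECC

/-- `q(y) = e^{-2πy}` -/
noncomputable def qq (y : ℝ) : ℝ := Real.exp (-(2 * Real.pi * y))

theorem qq_pos (y : ℝ) : 0 < qq y := Real.exp_pos _

theorem qq_lt {y : ℝ} (hy : 0 < y) : qq y < 1 := by
  unfold qq
  rw [Real.exp_lt_one_iff]
  have := mul_pos Real.pi_pos hy
  linarith

theorem abs_qq_lt {y : ℝ} (hy : 0 < y) : |qq y| < 1 := by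
  rw [abs_of_pos (qq_pos y)]; exact qq_lt hy

theorem qq_deriv (y : ℝ) : HasDerivAt qq (-(2 * Real.pi) * qq y) y := by
  unfold qq
  have h := ((hasDerivAt_id y).const_mul (2 * Real.pi)).neg.exp
  refine h.congr_deriv ?_
  simp [mul_comm]

theorem qq2_deriv (y : ℝ) : HasDerivAt (fun y => qq y ^ 2) (-(4 * Real.pi) * qq y ^ 2) y := by
  have h := (qq_deriv y).pow 2
  refine h.congr_deriv ?_
  simp only [Nat.add_one_sub_one, pow_one]
  push_cast
  ring

theorem a1_deriv {y : ℝ} (hy : 0 < y) :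
    HasDerivAt (fun y => aS (qq y)) (-(2 * Real.pi) * aT (qq y)) y := by
  unfold aS aT
  refine ((LS_comp_deriv PG.chi (qq_deriv y) (abs_qq_lt hy)).const_mul 6
    |>.const_add 1).congr_deriv ?_
  ring

theorem a2_deriv {y : ℝ} (hy : 0 < y) :
    HasDerivAt (fun y => aS (qq y ^ 2)) (-(2 * Real.pi) * (2 * aT (qq y ^ 2))) y := by
  unfold aS aT
  refine ((LS_comp_deriv PG.chi (qq2_deriv y) (abs_pow_lt_one' (abs_qq_lt hy)
    (by norm_num : 1 ≤ 2))).const_mul 6 |>.const_add 1).congr_deriv ?_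
  ring

/-- the product of the four level 6 functions -/
noncomputable def gg (y : ℝ) : ℝ := AA (qq y) * BB (qq y) * CC (qq y) * DD (qq y)

theorem gg_eq (y : ℝ) : gg y = (4 * aS (qq y ^ 2) ^ 2 - aS (qq y) ^ 2) *
    (aS (qq y) ^ 2 - aS (qq y ^ 2) ^ 2) / 36 := by
  unfold gg AA BB CC DD; ring

theorem gg_deriv (th : G_TH) {y : ℝ} (hy : 0 < y) :
    HasDerivAt gg (-(2 * Real.pi) * gg y *
      ((PS (qq y) + 2 * PS (qq y ^ 2) + 3 * PS (qq y ^ 3) + 6 * PS (qq y ^ 6)) / 12)) y := by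
  obtain ⟨t1, t2, -, -, t5, t6, t7⟩ := th (qq y) (abs_qq_lt hy)
  have h1 := a1_deriv hy
  have h2 := a2_deriv hy
  have h := ((((h2.pow 2).const_mul 4).sub (h1.pow 2)).mul ((h1.pow 2).sub (h2.pow 2))).div_const 36
  have e : gg = fun y => (4 * aS (qq y ^ 2) ^ 2 - aS (qq y) ^ 2) *
    (aS (qq y) ^ 2 - aS (qq y ^ 2) ^ 2) / 36 := funext gg_eq
  rw [e]
  refine (h.congr_deriv ?_)
  simp only [Nat.add_one_sub_one, pow_one, Pi.pow_apply, Pi.sub_apply]
  push_cast
  unfold AA BB at t1 t2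
  generalize aS (qq y) = a at *
  generalize aS (qq y ^ 2) = b at *
  generalize aT (qq y) = a' at *
  generalize aT (qq y ^ 2) = b' at *
  generalize PS (qq y) = P at *
  generalize PS (qq y ^ 2) = P2 at *
  generalize PS (qq y ^ 3) = P3 at *
  generalize PS (qq y ^ 6) = P6 at *
  have ea : a' = (a * P + 3 * a ^ 3 - 4 * ((2 * b - a) ^ 2 * ((a + b) / 2))) / 12 := by linarith
  have eb : b' = (b * (P + a ^ 2 + 2 * a * b - 2 * b ^ 2) + 6 * b ^ 3 -
    8 * ((2 * b - a) * ((a + b) / 2) ^ 2)) / 24 := by linarith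
  subst ea eb t5 t6 t7
  ring

theorem qq_tendsto : Tendsto qq atTop (𝓝 0) := by
  unfold qq
  have h : Tendsto (fun y : ℝ => 2 * Real.pi * y) atTop atTop :=
    tendsto_id.const_mul_atTop (by positivity)
  exact Real.tendsto_exp_neg_atTop_nhds_zero.comp h

theorem a1_tendsto : Tendsto (fun y => aS (qq y)) atTop (𝓝 1) := by
  have h := (aS_continuousAt (q := 0) (by simp)).tendsto.comp qq_tendsto
  rw [aS_zero] at h
  exact h

theorem a2_tendsto : Tendsto (fun y => aS (qq y ^ 2)) atTop (𝓝 1) := by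
  have h0 : Tendsto (fun y => qq y ^ 2) atTop (𝓝 0) := by
    have := qq_tendsto.pow 2
    simpa using this
  have h := (aS_continuousAt (q := 0) (by simp)).tendsto.comp h0
  rw [aS_zero] at h
  exact h

theorem dd_tendsto : Tendsto (fun y => DD (qq y) / qq y) atTop (𝓝 1) := by
  obtain ⟨C, hC, h⟩ := aS_expand (r := 1 / 2) (by norm_num)
  have hb : ∀ᶠ y in atTop, |DD (qq y) / qq y - 1| ≤ (2 * C + 6) * qq y := by
    have hsmall : ∀ᶠ y in atTop, qq y < 1 / 2 :=
      qq_tendsto.eventually_lt_const (by norm_num)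
    filter_upwards [hsmall] with y hy
    have hp := qq_pos y
    set q := qq y with hq
    have h1 := h q (by rw [abs_of_pos hp]; exact hy.le)
    have hq2 : |q ^ 2| ≤ 1 / 2 := by
      rw [abs_of_pos (by positivity)]; nlinarith
    have h2 := h (q ^ 2) hq2
    have e : DD q / q - 1 = ((aS q - 1 - 6 * q) - (aS (q ^ 2) - 1 - 6 * q ^ 2) - 6 * q ^ 2)
        / (6 * q) := by
      unfold DD
      field_simp
      ring
    rw [e, abs_div, abs_of_pos (show (0:ℝ) < 6 * q by positivity), div_le_iff₀ (by positivity)]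
    have h3 : |(aS q - 1 - 6 * q) - (aS (q ^ 2) - 1 - 6 * q ^ 2) - 6 * q ^ 2| ≤
        |aS q - 1 - 6 * q| + |aS (q ^ 2) - 1 - 6 * q ^ 2| + 6 * q ^ 2 := by
      refine (abs_sub _ _).trans ?_
      rw [abs_of_pos (show (0:ℝ) < 6 * q ^ 2 by positivity)]
      have := abs_sub (aS q - 1 - 6 * q) (aS (q ^ 2) - 1 - 6 * q ^ 2)
      linarith
    refine h3.trans ?_
    have h4 : (q ^ 2) ^ 2 ≤ q ^ 2 := by
      have hle : q ^ 2 ≤ 1 := by nlinarith
      calc (q ^ 2) ^ 2 = q ^ 2 * q ^ 2 := by ring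
        _ ≤ 1 * q ^ 2 := mul_le_mul_of_nonneg_right hle (sq_nonneg q)
        _ = q ^ 2 := one_mul _
    have h5 : C * (q ^ 2) ^ 2 ≤ C * q ^ 2 := mul_le_mul_of_nonneg_left h4 hC
    nlinarith [mul_nonneg hC (sq_nonneg q), sq_nonneg q]
  rw [tendsto_iff_norm_sub_tendsto_zero]
  have hz : Tendsto (fun y => (2 * C + 6) * qq y) atTop (𝓝 0) := by
    have := qq_tendsto.const_mul (2 * C + 6)
    simpa using this
  refine squeeze_zero' (Eventually.of_forall fun y => norm_nonneg _) ?_ hz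
  filter_upwards [hb] with y hy
  rw [Real.norm_eq_abs]; exact hy

theorem gg_tendsto : Tendsto (fun y => gg y * Real.exp (2 * Real.pi * y)) atTop (𝓝 1) := by
  have h1 : Tendsto (fun y => AA (qq y)) atTop (𝓝 1) := by
    have := (a2_tendsto.const_mul 2).sub a1_tendsto
    norm_num at this
    exact this
  have h2 : Tendsto (fun y => BB (qq y)) atTop (𝓝 1) := by
    have := (a1_tendsto.add a2_tendsto).div_const 2
    norm_num at this
    exact this
  have h3 : Tendsto (fun y => CC (qq y)) atTop (𝓝 1) := by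
    have := (a1_tendsto.add (a2_tendsto.const_mul 2)).div_const 3
    norm_num at this
    exact this
  have h := ((h1.mul h2).mul h3).mul dd_tendsto
  simp only [mul_one] at h
  refine h.congr fun y => ?_
  unfold gg
  have e : Real.exp (2 * Real.pi * y) = 1 / qq y := by
    unfold qq
    rw [Real.exp_neg]; simp
  rw [e]
  ring

theorem f_ (th : G_TH) (eta_ : G_ETA) : G_F := by
  have key : ∀ y : ℝ, 0 < y → HasDerivAt (fun y => gg y / ff y) 0 y := by
    intro y hy
    obtain ⟨hpos, hder, -⟩ := eta_ y hy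
    have h1 := gg_deriv th hy
    have h := h1.div hder hpos.ne'
    refine h.congr_deriv ?_
    unfold qq
    rw [div_eq_zero_iff]
    left
    ring
  have hconst : ∀ y : ℝ, 0 < y → gg y / ff y = gg 1 / ff 1 := by
    intro y hy
    have hd : DifferentiableOn ℝ (fun y => gg y / ff y) (Ioi 0) := fun z hz =>
      (key z hz).differentiableAt.differentiableWithinAt
    have hz : EqOn (deriv (fun y => gg y / ff y)) 0 (Ioi 0) := fun z hz => (key z hz).deriv
    exact isOpen_Ioi.is_const_of_deriv_eq_zero isPreconnected_Ioi hd hz hy (mem_Ioi.2 one_pos)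
  have hlim : Tendsto (fun y => gg y / ff y) atTop (𝓝 1) := by
    obtain ⟨-, -, h2⟩ := eta_ 1 one_pos
    have h := gg_tendsto.div h2 one_ne_zero
    rw [div_one] at h
    refine h.congr fun y => ?_
    have : Real.exp (2 * Real.pi * y) ≠ 0 := (Real.exp_pos _).ne'
    exact mul_div_mul_right _ _ this
  have h1 : gg 1 / ff 1 = 1 := by
    have hc : Tendsto (fun y => gg y / ff y) atTop (𝓝 (gg 1 / ff 1)) := by
      refine tendsto_const_nhds.congr' ?_
      filter_upwards [eventually_gt_atTop 0] with y hy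
      exact (hconst y hy).symm
    exact tendsto_nhds_unique hc hlim
  intro y hy
  have h2 := hconst y hy
  rw [h1] at h2
  have hp := (eta_ y hy).1
  rw [div_eq_one_iff_eq hp.ne'] at h2
  rw [← h2]
  rfl

end ECC.PkF
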